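import Pool.Agent.H47.RP.Targets
import Pool.Agent.H91.LF.Basic

/-!
# RAR: the entropy decrement for the twisted dilations, real values
-/

set_option autoImplicit false

open Finset Filter Topology

namespace Pool.Agent.H12.RPR

open Pool.Agent.H91.LF (Mean Dil Bdd bdd_const bdd_add bdd_mul bdd_smul bdd_sub bdd_sum bdd_comp)
open Pool.Agent.H47.RP Pool.Agent.H36.RP

lemma dil1 (M : Mean 1) (hM : Dil M) (p : ℕ) (hp : p.Prime) (h : ℤ → ℝ) (hb : Bdd h) :
    M.E (fun ω => (p : ℝ) * if (p : ℤ) ∣ ω 0 then h (ω 0 / p) else 0) =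
      M.E (fun ω => h (ω 0)) := by
  have h1 := hM p hp (fun ω => h (ω 0)) (bdd_comp hb _)
  rw [← h1]
  congr 1
  funext ω
  rw [pow_one]
  congr 1
  by_cases hd : (p : ℤ) ∣ ω 0
  · rw [if_pos hd, if_pos]
    intro i
    rw [Subsingleton.elim i 0]
    exact hd
  · rw [if_neg hd, if_neg]
    intro h2
    exact hd (h2 0)

lemma dens (M : Mean 1) (hM : Dil M) (p : ℕ) (hp : p.Prime) (k : ℤ) :
    M.E (fun ω => if (p : ℤ) ∣ ω 0 + k then (1 : ℝ) else 0) = 1 / p := by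
  have hp0 : (0 : ℝ) < p := by exact_mod_cast hp.pos
  have hb : Bdd (fun ω : Fin 1 → ℤ => if (p : ℤ) ∣ ω 0 then (1 : ℝ) else 0) :=
    ⟨1, fun ω => by dsimp only; split_ifs <;> simp⟩
  have h1 := dil1 M hM p hp (fun _ => 1) (bdd_const 1)
  rw [M.smul _ _ hb, M.one] at h1
  have h3 : M.E (fun ω => if (p : ℤ) ∣ ω 0 + k then (1 : ℝ) else 0) =
      M.E (fun ω => if (p : ℤ) ∣ ω 0 then (1 : ℝ) else 0) := M.shift (fun _ => k) _ hb
  rw [h3, eq_div_iff hp0.ne', mul_comm]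
  exact h1

lemma sub_E_le (M : Mean 1) {f g h : (Fin 1 → ℤ) → ℝ} (hf : Bdd f) (hg : Bdd g) (hh : Bdd h)
    (H : ∀ ω, |f ω - g ω| ≤ h ω) : |M.E f - M.E g| ≤ M.E h := by
  rw [abs_le]
  constructor
  · have h1 := M.E_mono (bdd_sub hg hf) hh fun ω => by
      have h2 := (abs_le.1 (H ω)).1
      change g ω - f ω ≤ h ω
      linarith
    rw [M.E_sub hg hf] at h1
    linarith
  · have h1 := M.E_mono (bdd_sub hf hg) hh fun ω => (abs_le.1 (H ω)).2
    rw [M.E_sub hf hg] at h1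
    linarith

lemma sg_abs (t : ℝ) : |sg t| = 1 := by
  unfold sg
  split_ifs <;> norm_num

lemma sg_mul (t : ℝ) : sg t * t = |t| := by
  unfold sg
  split_ifs with h
  · rw [abs_of_neg h]
    ring
  · rw [abs_of_nonneg (not_lt.1 h), one_mul]

lemma uc_eq {H : ℕ} {Φ : (ℤ → ℝ) → ℝ} (hU : UC H Φ) {z z' : ℤ → ℝ}
    (h : ∀ k : ℤ, |k| ≤ H → |z k| ≤ 1 ∧ z k = z' k) : Φ z = Φ z' := by
  by_contra hne
  have h1 : 0 < |Φ z - Φ z'| := abs_pos.2 (sub_ne_zero.2 hne)
  obtain ⟨δ, hδ, h2⟩ := hU (|Φ z - Φ z'| / 2) (by positivity)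
  have h3 := h2 z z' fun k hk => by
    obtain ⟨h4, h5⟩ := h k hk
    refine ⟨h4, h5 ▸ h4, ?_⟩
    rw [h5, sub_self, abs_zero]
    exact hδ.le
  linarith

/-- the discretization -/
lemma disc (F : ℤ → ℝ) (hF : ∀ n, |F n| ≤ 1) (N : ℕ) (hN : 0 < N) :
    ∃ (r : Fin (2 * N + 1) → ℝ) (x : ℤ → Fin (2 * N + 1)), (∀ a, |r a| ≤ 1) ∧
      ∀ n, |r (x n) - F n| ≤ 1 / N := by
  have hN0 : (0 : ℝ) < N := by exact_mod_cast hN
  have hb : ∀ n, ⌊(F n + 1) * N⌋₊ < 2 * N + 1 := by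
    intro n
    refine Nat.lt_succ_of_le (Nat.floor_le_of_le ?_)
    push_cast
    have h1 := (abs_le.1 (hF n)).2
    nlinarith
  refine ⟨fun a => ((a : ℕ) : ℝ) / N - 1, fun n => ⟨⌊(F n + 1) * N⌋₊, hb n⟩, ?_, ?_⟩
  · intro a
    have h1 : ((a : ℕ) : ℝ) ≤ 2 * N := by exact_mod_cast Nat.lt_succ_iff.1 a.2
    have h2 : ((a : ℕ) : ℝ) / N ≤ 2 := by
      rw [div_le_iff₀ hN0]
      exact h1
    have h3 : (0 : ℝ) ≤ ((a : ℕ) : ℝ) / N := by positivity
    rw [abs_le]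
    constructor <;> linarith
  · intro n
    change |((⌊(F n + 1) * N⌋₊ : ℕ) : ℝ) / N - 1 - F n| ≤ 1 / N
    have h0 : 0 ≤ (F n + 1) * N := by
      have h1 := (abs_le.1 (hF n)).1
      exact mul_nonneg (by linarith) hN0.le
    have h1 := Nat.floor_le h0
    have h2 := Nat.lt_floor_add_one ((F n + 1) * N)
    have h3 : ((⌊(F n + 1) * N⌋₊ : ℕ) : ℝ) / N - 1 - F n =
        (((⌊(F n + 1) * N⌋₊ : ℕ) : ℝ) - (F n + 1) * N) / N := by
      field_simp
      ring
    rw [h3, abs_div, abs_of_pos hN0]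
    refine div_le_div_of_nonneg_right ?_ hN0.le
    rw [abs_le]
    constructor <;> linarith

theorem pf_RAR : T_RAD → T_RAR := by
  classical
  intro hR M hM F hF hmul H Φ hΦ hUC ε hε
  obtain ⟨δ, hδ, hU⟩ := hUC (ε / 8) (by positivity)
  obtain ⟨N, hN⟩ := exists_nat_gt (1 / δ)
  have hN1 : (0 : ℝ) < N := lt_trans (by positivity) hN
  have hN0 : 0 < N := by exact_mod_cast hN1
  have hNd : 1 / (N : ℝ) ≤ δ := by
    rw [div_lt_iff₀ hδ] at hN
    rw [div_le_iff₀ hN1]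
    linarith
  obtain ⟨r, x, hr, hx⟩ := disc F hF N hN0
  obtain ⟨C, hC⟩ := hR M (Fin (2 * N + 1)) inferInstance x H
  set g : ℕ → (ℤ → Fin (2 * N + 1)) → ℝ := fun p z => Φ (fun k => sg (F p) * r (z k)) with hg
  have hsr : ∀ (p : ℕ) (a : Fin (2 * N + 1)), |sg (F p) * r a| ≤ 1 := by
    intro p a
    rw [abs_mul, sg_abs, one_mul]
    exact hr a
  have hsF : ∀ (p : ℕ) (n : ℤ), |sg (F p) * F n| ≤ 1 := by
    intro p n
    rw [abs_mul, sg_abs, one_mul]
    exact hF n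
  have hdif : ∀ (p : ℕ) (n : ℤ), |sg (F p) * r (x n) - sg (F p) * F n| ≤ δ := by
    intro p n
    rw [← mul_sub, abs_mul, sg_abs, one_mul]
    exact (hx n).trans hNd
  set P : ℕ := ⌈16 * (2 * (H : ℝ) + 1) / ε⌉₊ with hP
  refine ⟨δ, 4 * C / ε ^ 2 + P, hδ, ?_⟩
  intro S hS
  have hΦb : ∀ (z : (Fin 1 → ℤ) → ℤ → ℝ), Bdd (fun ω => Φ (z ω)) := fun z => ⟨1, fun ω => hΦ _⟩
  have key : ∀ p ∈ S.filter (fun p => P ≤ p), (1 / (p : ℝ)) * (ε / 2) ^ 2 ≤
      (1 / (p : ℝ)) * (M.E (fun ω => (p : ℝ) * if (p : ℤ) ∣ ω 0 then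
          g p (fun k => x (ω 0 + p * k)) else 0) -
        M.E (fun ω => g p (fun k => x (ω 0 + p * k)))) ^ 2 := by
    intro p hp
    rw [mem_filter] at hp
    obtain ⟨hpS, hpP⟩ := hp
    obtain ⟨hpp, hpδ, hpε⟩ := hS p hpS
    have hp0 : (0 : ℝ) < p := by exact_mod_cast hpp.pos
    refine mul_le_mul_of_nonneg_left ?_ (by positivity)
    -- (1)
    have s1 : |M.E (fun ω => Φ (fun k => sg (F p) * F (ω 0 + p * k))) -
        M.E (fun ω => g p (fun k => x (ω 0 + p * k)))| ≤ ε / 8 := by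
      have h1 := sub_E_le M (hΦb fun ω k => sg (F p) * F (ω 0 + p * k))
        (hΦb fun ω k => sg (F p) * r (x (ω 0 + p * k))) (bdd_const (ε / 8)) fun ω => by
          refine hU _ _ fun k _ => ⟨hsF p _, hsr p _, ?_⟩
          rw [abs_sub_comm]
          exact hdif p _
      rw [M.E_const] at h1
      exact h1
    -- (2)
    set hh : ℤ → ℝ := fun n => ε / 4 +
      2 * ∑ k ∈ Icc (-(H : ℤ)) H, (if (p : ℤ) ∣ n + k then (1 : ℝ) else 0) with hhh
    have hib : ∀ k : ℤ, Bdd (fun n : ℤ => if (p : ℤ) ∣ n + k then (1 : ℝ) else 0) :=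
      fun k => ⟨1, fun n => by dsimp only; split_ifs <;> simp⟩
    have hhb : Bdd hh := bdd_add (bdd_const _) (bdd_smul 2 (bdd_sum _ _ fun k _ => hib k))
    have hhE : M.E (fun ω => hh (ω 0)) = ε / 4 + 2 * ((2 * H + 1) * (1 / p)) := by
      have h1 : Bdd (fun ω : Fin 1 → ℤ => ∑ k ∈ Icc (-(H : ℤ)) H,
          (if (p : ℤ) ∣ ω 0 + k then (1 : ℝ) else 0)) :=
        bdd_sum _ _ fun k _ => bdd_comp (hib k) fun ω : Fin 1 → ℤ => ω 0
      rw [hhh, M.add _ _ (bdd_const _) (bdd_smul 2 h1), M.E_const, M.smul _ _ h1,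
        M.E_sum _ _ fun k _ => bdd_comp (hib k) fun ω : Fin 1 → ℤ => ω 0]
      rw [sum_congr rfl fun k _ => dens M hM p hpp k, sum_const, nsmul_eq_mul, Int.card_Icc]
      have h2 : (((H : ℤ) + 1 - -(H : ℤ)).toNat : ℝ) = 2 * H + 1 := by
        have h3 : ((H : ℤ) + 1 - -(H : ℤ)) = ((2 * H + 1 : ℕ) : ℤ) := by push_cast; ring
        rw [h3, Int.toNat_natCast]
        push_cast
        ring
      rw [h2]
    have hpt : ∀ m : ℤ, |g p (fun k => x ((p : ℤ) * m + p * k)) - Φ (fun k => F (m + k))| ≤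
        hh m := by
      intro m
      by_cases hd : ∃ k ∈ Icc (-(H : ℤ)) H, (p : ℤ) ∣ m + k
      · obtain ⟨k, hk, hd⟩ := hd
        have h1 : (1 : ℝ) ≤ ∑ k ∈ Icc (-(H : ℤ)) H, (if (p : ℤ) ∣ m + k then (1 : ℝ) else 0) := by
          have h2 := single_le_sum (f := fun k : ℤ => if (p : ℤ) ∣ m + k then (1 : ℝ) else 0)
            (fun k _ => by split_ifs <;> norm_num) hk
          rwa [if_pos hd] at h2
        have h3 : |g p (fun k => x ((p : ℤ) * m + p * k)) - Φ (fun k => F (m + k))| ≤ 2 := by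
          refine (abs_sub _ _).trans ?_
          have h4 := hΦ (fun k => sg (F p) * r (x ((p : ℤ) * m + p * k)))
          have h5 := hΦ (fun k => F (m + k))
          change |Φ (fun k => sg (F p) * r (x ((p : ℤ) * m + p * k)))| + _ ≤ 2
          linarith
        change _ ≤ ε / 4 + 2 * ∑ k ∈ Icc (-(H : ℤ)) H, (if (p : ℤ) ∣ m + k then (1 : ℝ) else 0)
        linarith
      · push Not at hd
        have h1 : |g p (fun k => x ((p : ℤ) * m + p * k)) -
            Φ (fun k => sg (F p) * F ((p : ℤ) * m + p * k))| ≤ ε / 8 :=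
          hU _ _ fun k _ => ⟨hsr p _, hsF p _, hdif p _⟩
        have h2 : |Φ (fun k => sg (F p) * F ((p : ℤ) * m + p * k)) -
            Φ (fun k => F (m + k))| ≤ ε / 8 := by
          refine hU _ _ fun k hk => ⟨hsF p _, hF _, ?_⟩
          have h3 := hd k (by
            rw [mem_Icc]
            exact abs_le.1 hk)
          have h4 : (p : ℤ) * m + p * k = p * (m + k) := by ring
          rw [h4, hmul p (m + k) hpp h3, ← mul_assoc, sg_mul]
          have h5 : |F p| * F (m + k) - F (m + k) = -((1 - |F p|) * F (m + k)) := by ring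
          have h6 : 0 ≤ 1 - |F p| := sub_nonneg.2 (hF p)
          rw [h5, abs_neg, abs_mul, abs_of_nonneg h6]
          calc (1 - |F p|) * |F (m + k)| ≤ (1 - |F p|) * 1 :=
                mul_le_mul_of_nonneg_left (hF _) h6
            _ ≤ δ := by linarith
        have h7 : (0 : ℝ) ≤ ∑ k ∈ Icc (-(H : ℤ)) H, (if (p : ℤ) ∣ m + k then (1 : ℝ) else 0) :=
          sum_nonneg fun k _ => by split_ifs <;> norm_num
        have h8 := abs_sub_le (g p (fun k => x ((p : ℤ) * m + p * k)))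
          (Φ (fun k => sg (F p) * F ((p : ℤ) * m + p * k))) (Φ (fun k => F (m + k)))
        change _ ≤ ε / 4 + 2 * ∑ k ∈ Icc (-(H : ℤ)) H, (if (p : ℤ) ∣ m + k then (1 : ℝ) else 0)
        linarith
    clear_value hh
    have s2 : |M.E (fun ω => (p : ℝ) * if (p : ℤ) ∣ ω 0 then
          g p (fun k => x (ω 0 + p * k)) else 0) - M.E (fun ω => Φ (fun k => F (ω 0 + k)))| ≤
        ε / 4 + 2 * ((2 * H + 1) * (1 / p)) := by
      rw [← hhE, ← dil1 M hM p hpp hh hhb,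
        ← dil1 M hM p hpp (fun n => Φ (fun k => F (n + k))) ⟨1, fun n => hΦ _⟩]
      have hbi : ∀ q : (Fin 1 → ℤ) → ℝ, Bdd q →
          Bdd (fun ω => (p : ℝ) * if (p : ℤ) ∣ ω 0 then q ω else 0) := by
        intro q hq
        refine bdd_smul _ ?_
        obtain ⟨D, hD⟩ := hq
        refine ⟨D, fun ω => ?_⟩
        dsimp only
        split_ifs
        · exact hD ω
        · rw [abs_zero]
          exact (abs_nonneg _).trans (hD ω)
      have b1 : Bdd (fun ω : Fin 1 → ℤ => g p (fun k => x (ω 0 + p * k))) := ⟨1, fun ω => hΦ _⟩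
      have b2 : Bdd (fun ω : Fin 1 → ℤ => Φ (fun k => F (ω 0 / p + k))) := ⟨1, fun ω => hΦ _⟩
      have b3 : Bdd (fun ω : Fin 1 → ℤ => hh (ω 0 / p)) := by
        obtain ⟨D, hD⟩ := hhb
        exact ⟨D, fun ω => hD _⟩
      refine sub_E_le M (hbi _ b1) (hbi _ b2) (hbi _ b3) ?_
      intro ω
      by_cases hd : (p : ℤ) ∣ ω 0
      · rw [if_pos hd, if_pos hd, if_pos hd, ← mul_sub, abs_mul, abs_of_pos hp0]
        refine mul_le_mul_of_nonneg_left ?_ hp0.le
        obtain ⟨m, hm⟩ := hd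
        have hpz : (p : ℤ) ≠ 0 := by exact_mod_cast hpp.ne_zero
        rw [hm, Int.mul_ediv_cancel_left m hpz]
        exact hpt m
      · rw [if_neg hd, if_neg hd, if_neg hd]
        simp
    have s3 : 2 * ((2 * (H : ℝ) + 1) * (1 / p)) ≤ ε / 8 := by
      have h0 : (P : ℝ) ≤ p := by exact_mod_cast hpP
      have h1 : 16 * (2 * (H : ℝ) + 1) / ε ≤ p := (Nat.le_ceil _).trans h0
      rw [div_le_iff₀ hε] at h1
      have h2 : 2 * ((2 * (H : ℝ) + 1) * (1 / p)) = 2 * (2 * (H : ℝ) + 1) / p := by ring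
      rw [h2, div_le_iff₀ hp0]
      linarith
    set a := M.E (fun ω => Φ (fun k => sg (F p) * F (ω 0 + p * k)))
    set b := M.E (fun ω => g p (fun k => x (ω 0 + p * k)))
    set c := M.E (fun ω => (p : ℝ) * if (p : ℤ) ∣ ω 0 then
          g p (fun k => x (ω 0 + p * k)) else 0)
    set e := M.E (fun ω => Φ (fun k => F (ω 0 + k)))
    have h1 : |a - e| ≤ |a - b| + |c - b| + |c - e| := by
      have h2 := abs_sub_le a b e
      have h3 := abs_sub_le b c e
      rw [abs_sub_comm b c] at h3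
      linarith
    have h4 : ε / 2 ≤ |c - b| := by linarith
    rw [← sq_abs (c - b)]
    exact pow_le_pow_left₀ (by positivity) h4 2
  have h1 := hC g (fun p z => hΦ _) (fun p z z' hz => by
    refine uc_eq hUC fun k hk => ⟨hsr p _, ?_⟩
    change sg (F p) * r (z k) = sg (F p) * r (z' k)
    rw [hz k hk]) (S.filter (fun p => P ≤ p)) (fun p hp => (hS p (mem_filter.1 hp).1).1)
  have h2 : (∑ p ∈ S.filter (fun p => P ≤ p), 1 / (p : ℝ)) * (ε / 2) ^ 2 ≤ C := by
    rw [sum_mul]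
    exact (sum_le_sum key).trans h1
  have h3 : ∑ p ∈ S.filter (fun p => P ≤ p), 1 / (p : ℝ) ≤ 4 * C / ε ^ 2 := by
    rw [le_div_iff₀ (by positivity)]
    nlinarith
  have h4 : ∑ p ∈ S.filter (fun p => ¬ P ≤ p), 1 / (p : ℝ) ≤ P := by
    calc ∑ p ∈ S.filter (fun p => ¬ P ≤ p), 1 / (p : ℝ)
        ≤ ∑ _p ∈ S.filter (fun p => ¬ P ≤ p), (1 : ℝ) := by
          refine sum_le_sum fun p hp => ?_
          have h5 : (1 : ℝ) ≤ p := by
            exact_mod_cast (hS p (mem_filter.1 hp).1).1.one_lt.le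
          exact (div_le_one (by linarith)).2 h5
      _ = ((S.filter (fun p => ¬ P ≤ p)).card : ℝ) := by rw [sum_const, nsmul_eq_mul, mul_one]
      _ ≤ P := by
          have h6 : S.filter (fun p => ¬ P ≤ p) ⊆ range P := by
            intro p hp
            exact mem_range.2 (not_le.1 (mem_filter.1 hp).2)
          have h7 := card_le_card h6
          rw [card_range] at h7
          exact_mod_cast h7
  rw [← sum_filter_add_sum_filter_not S (fun p => P ≤ p)]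
  exact add_le_add h3 h4

end Pool.Agent.H12.RPR
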